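import Mathlib

/-!
# Adaptive vantage points: a linear lower bound (MP_617207_lc)
-/

set_option autoImplicit false

namespace Pool.Agent.Results.MP_617207_lc.LinearLowerBound

open SimpleGraph

variable {V : Type}

/-- total length of a walk -/
noncomputable def wlen {G : SimpleGraph V} (len : Sym2 V → ℝ) {s t : V} (p : G.Walk s t) : ℝ :=
  (p.edges.map len).sum

/-- `p` is a shortest path from `s` to `t` -/
def Shortest {G : SimpleGraph V} (len : Sym2 V → ℝ) {s t : V} (p : G.Walk s t) : Prop :=
  p.IsPath ∧ ∀ q : G.Walk s t, q.IsPath → wlen len p ≤ wlen len q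

/-- positive edge lengths with unique shortest paths inside the components -/
def Valid (G : SimpleGraph V) (len : Sym2 V → ℝ) : Prop :=
  (∀ e ∈ G.edgeSet, 0 < len e) ∧
    ∀ s t, G.Reachable s t → ∃! p : G.Walk s t, Shortest len p

/-- `e` is the bottleneck edge of the shortest path from `s` to `t` under the capacities `c` -/
def Bottleneck (G : SimpleGraph V) (len c : Sym2 V → ℝ) (s t : V) (e : Sym2 V) : Prop :=
  ∃ p : G.Walk s t, Shortest len p ∧ e ∈ p.edges ∧ ∀ e' ∈ p.edges, e' ≠ e → c e < c e'

/-- the set `R(S)` of the edges revealed by the vantage points in `S` -/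
def R (G : SimpleGraph V) (len c : Sym2 V → ℝ) (S : Finset V) : Set (Sym2 V) :=
  {e | ∃ s ∈ S, ∃ t, Bottleneck G len c s t e}

/-- what is learned at the vantage point `s`: for every `t`, the bottleneck edge of the shortest
path from `s` to `t` (if there is one) together with its capacity -/
def obs (G : SimpleGraph V) (len c : Sym2 V → ℝ) (s : V) : V → Set (Sym2 V × ℝ) :=
  fun t => {x | Bottleneck G len c s t x.1 ∧ x.2 = c x.1}

/-- the list of the chosen vantage points with what was learned there -/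
abbrev History (V : Type) : Type := List (V × (V → Set (Sym2 V × ℝ)))

/-- the history after `m` steps of the adaptive strategy `B` (`none` means that it stops) -/
def hist (G : SimpleGraph V) (len c : Sym2 V → ℝ) (B : History V → Option V) : ℕ → History V
  | 0 => []
  | m + 1 => match B (hist G len c B m) with
    | none => hist G len c B m
    | some s => hist G len c B m ++ [(s, obs G len c s)]

open Classical in
/-- under the capacities `c` the strategy `B` stops, with `S` as its set of vantage points -/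
def EndsWith (G : SimpleGraph V) (len c : Sym2 V → ℝ) (B : History V → Option V)
    (S : Finset V) : Prop :=
  ∃ m, B (hist G len c B m) = none ∧ S = ((hist G len c B m).map Prod.fst).toFinset

/-- under the capacities `c` the strategy `B` ends with a set of vantage points which reveals at
least `OPT(G, c, k)` capacities -/
def Optimal (G : SimpleGraph V) (len c : Sym2 V → ℝ) (B : History V → Option V) (k : ℕ)
    (S : Finset V) : Prop :=
  EndsWith G len c B S ∧ ∀ T : Finset V, T.card = k → (R G len c T).ncard ≤ (R G len c S).ncard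

/-! ### The adversary -/

section adversary

variable [DecidableEq V] (L : List V)

/-- is the edge incident to a vertex of the list? -/
def Hit (L : List V) (e : Sym2 V) : Prop := ∃ s ∈ L, s ∈ e

open Classical in
/-- capacities: edges at the `i`-th queried vertex are cheap, the others have value `w` -/
noncomputable def cap (w : Sym2 V → ℝ) (L : List V) (e : Sym2 V) : ℝ :=
  if Hit L e then 1 - 1 / ((L.findIdx (fun s => decide (s ∈ e)) : ℝ) + 2) else w e

/-- the threshold -/
noncomputable def thr (m : ℕ) : ℝ := 1 - 1 / ((m : ℝ) + 2)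

theorem thr_lt_one (m : ℕ) : thr m < 1 := by
  unfold thr
  have : (0 : ℝ) < 1 / ((m : ℝ) + 2) := by positivity
  linarith

theorem thr_pos (m : ℕ) : 0 < thr m := by
  unfold thr
  have : (1 : ℝ) / ((m : ℝ) + 2) < 1 := by
    rw [div_lt_one (by positivity)]
    have : (0 : ℝ) ≤ m := Nat.cast_nonneg m
    linarith
  linarith

theorem thr_lt {i j : ℕ} (h : i < j) : thr i < thr j := by
  unfold thr
  have : (i : ℝ) < j := by exact_mod_cast h
  have := one_div_lt_one_div_of_lt (show (0 : ℝ) < (i : ℝ) + 2 by positivity)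
    (show (i : ℝ) + 2 < (j : ℝ) + 2 by linarith)
  linarith

theorem thr_le {i j : ℕ} (h : i ≤ j) : thr i ≤ thr j := by
  rcases h.lt_or_eq with h | h
  · exact (thr_lt h).le
  · rw [h]

theorem findIdx_lt_of_hit {L : List V} {e : Sym2 V} (h : Hit L e) :
    L.findIdx (fun s => decide (s ∈ e)) < L.length := by
  obtain ⟨s, hs, hse⟩ := h
  exact List.findIdx_lt_length_of_exists ⟨s, hs, by simpa using hse⟩

theorem cap_hit (w : Sym2 V → ℝ) {L : List V} (M : List V) {e : Sym2 V} (h : Hit L e) :
    cap w (L ++ M) e = cap w L e ∧ cap w L e < thr L.length := by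
  have h1 : Hit (L ++ M) e := by
    obtain ⟨s, hs, hse⟩ := h
    exact ⟨s, List.mem_append_left _ hs, hse⟩
  have h2 := findIdx_lt_of_hit h
  unfold cap
  rw [if_pos h, if_pos h1]
  constructor
  · rw [List.findIdx_append, if_pos h2]
  · exact thr_lt h2

theorem cap_not_hit {w : Sym2 V → ℝ} (hw : ∀ e, 1 ≤ w e) {L : List V} (M : List V) {e : Sym2 V}
    (h : ¬ Hit L e) : thr L.length ≤ cap w (L ++ M) e := by
  unfold cap
  split_ifs with h1
  · have h2 : L.findIdx (fun s => decide (s ∈ e)) = L.length := by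
      rw [List.findIdx_eq_length]
      intro x hx
      have : ¬ x ∈ e := fun h3 => h ⟨x, hx, h3⟩
      simpa using this
    rw [List.findIdx_append, if_neg (by omega)]
    exact thr_le (by omega)
  · exact (thr_lt_one _).le.trans (hw e)

theorem cap_pos {w : Sym2 V → ℝ} (hw : ∀ e, 1 ≤ w e) (L : List V) (e : Sym2 V) :
    0 < cap w L e := by
  unfold cap
  split_ifs
  · exact thr_pos _
  · exact lt_of_lt_of_le one_pos (hw e)

omit [DecidableEq V] in
theorem first_edge {G : SimpleGraph V} {s t : V} (p : G.Walk s t) {e : Sym2 V} (he : e ∈ p.edges) :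
    ∃ e0 ∈ p.edges, s ∈ e0 := by
  cases p with
  | nil => simp at he
  | cons h q => exact ⟨_, List.mem_cons_self, Sym2.mem_mk_left _ _⟩

/-- what is learned at a queried vertex is not changed by the later queries -/
theorem bottleneck_iff {G : SimpleGraph V} {len w : Sym2 V → ℝ} (hw : ∀ e, 1 ≤ w e) {L : List V}
    (M : List V) {s : V} (hs : s ∈ L) (t : V) (e : Sym2 V) :
    (Bottleneck G len (cap w (L ++ M)) s t e ↔ Bottleneck G len (cap w L) s t e) ∧
      (Bottleneck G len (cap w L) s t e → Hit L e) := by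
  have hL : ∀ e, ¬ Hit L e → thr L.length ≤ cap w L e := by
    intro e he
    have := cap_not_hit hw [] he
    rwa [List.append_nil] at this
  have hhit : ∀ p : G.Walk s t, e ∈ p.edges → (∀ e' ∈ p.edges, e' ≠ e →
      cap w L e < cap w L e') → Hit L e := by
    intro p he hmin
    obtain ⟨e0, h0, hs0⟩ := first_edge p he
    have h1 : Hit L e0 := ⟨s, hs, hs0⟩
    by_contra h2
    have h3 : e0 ≠ e := fun h => h2 (h ▸ h1)
    have h4 := hmin e0 h0 h3
    have h5 := (cap_hit w M h1).2
    have h6 := hL e h2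
    linarith
  refine ⟨⟨?_, ?_⟩, ?_⟩
  · rintro ⟨p, hp, he, hmin⟩
    refine ⟨p, hp, he, ?_⟩
    have h7 : Hit L e := by
      obtain ⟨e0, h0, hs0⟩ := first_edge p he
      have h1 : Hit L e0 := ⟨s, hs, hs0⟩
      by_contra h2
      have h3 : e0 ≠ e := fun h => h2 (h ▸ h1)
      have h4 := hmin e0 h0 h3
      have h5 := cap_hit w M h1
      have h6 := cap_not_hit hw M h2
      rw [h5.1] at h4
      linarith [h5.2]
    intro e' he' hne
    have h8 := hmin e' he' hne
    have h9 := cap_hit w M h7
    by_cases h10 : Hit L e'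
    · rw [h9.1, (cap_hit w M h10).1] at h8
      exact h8
    · exact h9.2.trans_le (hL e' h10)
  · rintro ⟨p, hp, he, hmin⟩
    refine ⟨p, hp, he, ?_⟩
    have h7 := hhit p he hmin
    intro e' he' hne
    have h9 := cap_hit w M h7
    rw [h9.1]
    by_cases h10 : Hit L e'
    · rw [(cap_hit w M h10).1]
      exact hmin e' he' hne
    · exact h9.2.trans_le (cap_not_hit hw M h10)
  · rintro ⟨p, hp, he, hmin⟩
    exact hhit p he hmin

theorem obs_eq {G : SimpleGraph V} {len w : Sym2 V → ℝ} (hw : ∀ e, 1 ≤ w e) {L : List V}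
    (M : List V) {s : V} (hs : s ∈ L) :
    obs G len (cap w (L ++ M)) s = obs G len (cap w L) s := by
  funext t
  ext ⟨e, x⟩
  have h := bottleneck_iff (G := G) (len := len) hw M hs t e
  change (Bottleneck G len (cap w (L ++ M)) s t e ∧ x = cap w (L ++ M) e) ↔
    (Bottleneck G len (cap w L) s t e ∧ x = cap w L e)
  rw [h.1]
  constructor
  · rintro ⟨h1, h2⟩
    exact ⟨h1, by rw [h2, (cap_hit w M (h.2 h1)).1]⟩
  · rintro ⟨h1, h2⟩
    exact ⟨h1, by rw [h2, (cap_hit w M (h.2 h1)).1]⟩

/-- the list of the vertices queried after `m` steps, with the history shown by the adversary -/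
noncomputable def sim (G : SimpleGraph V) (len w : Sym2 V → ℝ) (B : History V → Option V) :
    ℕ → History V × List V
  | 0 => ([], [])
  | m + 1 => match B (sim G len w B m).1 with
    | none => sim G len w B m
    | some s => if s ∈ (sim G len w B m).2
      then ((sim G len w B m).1 ++ [(s, obs G len (cap w (sim G len w B m).2) s)],
        (sim G len w B m).2)
      else ((sim G len w B m).1 ++ [(s, obs G len (cap w ((sim G len w B m).2 ++ [s])) s)],
        (sim G len w B m).2 ++ [s])

variable {G : SimpleGraph V} {len w : Sym2 V → ℝ} {B : History V → Option V}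

theorem sim_prefix_succ (m : ℕ) : (sim G len w B m).2 <+: (sim G len w B (m + 1)).2 := by
  rw [sim]
  cases B (sim G len w B m).1 with
  | none => exact List.prefix_rfl
  | some s =>
    dsimp only
    split_ifs
    · exact List.prefix_rfl
    · exact List.prefix_append _ _

theorem sim_prefix {m m' : ℕ} (h : m ≤ m') :
    (sim G len w B m).2 <+: (sim G len w B m').2 := by
  induction m', h using Nat.le_induction with
  | base => exact List.prefix_rfl
  | succ m' _ ih => exact ih.trans (sim_prefix_succ m')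

theorem sim_nodup (m : ℕ) : (sim G len w B m).2.Nodup := by
  induction m with
  | zero => simp [sim]
  | succ m ih =>
    rw [sim]
    cases B (sim G len w B m).1 with
    | none => exact ih
    | some s =>
      dsimp only
      split_ifs with h
      · exact ih
      · rw [List.nodup_append]
        refine ⟨ih, List.nodup_singleton s, ?_⟩
        intro a ha b hb
        rw [List.mem_singleton] at hb
        rintro rfl
        exact h (hb ▸ ha)

theorem sim_set (m : ℕ) : ((sim G len w B m).1.map Prod.fst).toFinset =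
    (sim G len w B m).2.toFinset := by
  induction m with
  | zero => simp [sim]
  | succ m ih =>
    rw [sim]
    cases B (sim G len w B m).1 with
    | none => exact ih
    | some s =>
      dsimp only
      split_ifs with h
      · dsimp only
        rw [List.map_append, List.toFinset_append, ih]
        ext x
        simp only [Finset.mem_union, List.mem_toFinset, List.map_cons, List.map_nil,
          List.mem_singleton]
        constructor
        · rintro (h1 | rfl)
          · exact h1
          · exact h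
        · exact Or.inl
      · dsimp only
        rw [List.map_append, List.toFinset_append, List.toFinset_append, ih]
        simp

/-- the adversary's list is eventually constant -/
theorem sim_stable [Fintype V] : ∃ M, ∀ m, M ≤ m → (sim G len w B m).2 = (sim G len w B M).2 := by
  have hbd : ∀ m, (sim G len w B m).2.length ≤ Fintype.card V := fun m =>
    (sim_nodup m).length_le_card
  obtain ⟨M, hM⟩ : ∃ M, ∀ m, (sim G len w B m).2.length ≤ (sim G len w B M).2.length := by
    by_contra hcon
    push Not at hcon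
    have : ∀ k, ∃ m, k ≤ (sim G len w B m).2.length := by
      intro k
      induction k with
      | zero => exact ⟨0, Nat.zero_le _⟩
      | succ k ih =>
        obtain ⟨m, hm⟩ := ih
        obtain ⟨m', hm'⟩ := hcon m
        exact ⟨m', by omega⟩
    obtain ⟨m, hm⟩ := this (Fintype.card V + 1)
    have := hbd m
    omega
  refine ⟨M, fun m hm => ?_⟩
  exact ((sim_prefix hm).eq_of_length_le (hM m)).symm

/-- against the adversary's final capacities the strategy sees exactly the simulated history -/
theorem hist_eq_sim (hw : ∀ e, 1 ≤ w e) {M : ℕ}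
    (hM : ∀ m, M ≤ m → (sim G len w B m).2 = (sim G len w B M).2) (m : ℕ) :
    hist G len (cap w (sim G len w B M).2) B m = (sim G len w B m).1 := by
  induction m with
  | zero => simp [hist, sim]
  | succ m ih =>
    have hpre : (sim G len w B (m + 1)).2 <+: (sim G len w B M).2 := by
      rcases Nat.le_total (m + 1) M with h | h
      · exact sim_prefix h
      · rw [hM _ h]
    rw [hist, ih, sim]
    rw [sim] at hpre
    cases hB : B (sim G len w B m).1 with
    | none => rfl
    | some s =>
      rw [hB] at hpre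
      dsimp only at hpre ⊢
      split_ifs at hpre ⊢ with h
      · obtain ⟨K, hK⟩ := hpre
        dsimp only at hK ⊢
        rw [← hK, obs_eq hw K h]
      · obtain ⟨K, hK⟩ := hpre
        dsimp only at hK ⊢
        rw [← hK, obs_eq hw K (by simp)]

/-- For some list `L` of vertices, if the strategy stops under the capacities `cap w L` then it does
so with exactly the vertices of `L`. -/
theorem adversary [Fintype V] (hw : ∀ e, 1 ≤ w e) :
    ∃ L : List V, ∀ S, EndsWith G len (cap w L) B S → S = L.toFinset := by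
  classical
  obtain ⟨M, hM⟩ := sim_stable (G := G) (len := len) (w := w) (B := B)
  refine ⟨(sim G len w B M).2, ?_⟩
  rintro S ⟨m, hm, hS⟩
  rw [hist_eq_sim hw hM m] at hm hS
  have hconst : ∀ m', m ≤ m' → sim G len w B m' = sim G len w B m := by
    intro m' h
    induction m', h using Nat.le_induction with
    | base => rfl
    | succ m' _ ih =>
      rw [sim, ih, hm]
  have h1 : (sim G len w B m).2 = (sim G len w B M).2 := by
    rcases Nat.le_total m M with h | h
    · rw [hconst M h]
    · exact hM m h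
  rw [hS, ← h1, ← sim_set]
  congr
  exact Subsingleton.elim _ _

end adversary

/-! ### The graph -/

section rook

variable {a : ℕ} (φ : V ≃ Fin a × Fin a)

/-- the cells of an `a × a` board, adjacent when they are in the same row or column -/
def rook : SimpleGraph V where
  Adj x y := x ≠ y ∧ ((φ x).1 = (φ y).1 ∨ (φ x).2 = (φ y).2)
  symm := ⟨fun _ _ h => ⟨h.1.symm, h.2.imp Eq.symm Eq.symm⟩⟩
  loopless := ⟨fun _ h => h.1 rfl⟩

/-- lengths: `4a` for the edges in a column, `4a + 2i` for the edges in the row `i` -/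
def rlen : Sym2 V → ℝ := Sym2.lift ⟨fun x y => if (φ x).2 = (φ y).2 then 4 * (a : ℝ) else
  4 * a + ((φ x).1 : ℕ) + ((φ y).1 : ℕ), fun x y => by
    simp only [eq_comm (a := (φ x).2) (b := (φ y).2), add_right_comm]⟩

/-- base capacities: `2` for the edges in a column, `3` for the edges in a row -/
def base : Sym2 V → ℝ := Sym2.lift ⟨fun x y => if (φ x).2 = (φ y).2 then 2 else 3, fun x y => by
    simp only [eq_comm (a := (φ x).2) (b := (φ y).2)]⟩

theorem rlen_mk (x y : V) : rlen φ s(x, y) = if (φ x).2 = (φ y).2 then 4 * (a : ℝ) else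
  4 * a + ((φ x).1 : ℕ) + ((φ y).1 : ℕ) := rfl

theorem base_mk (x y : V) : base φ s(x, y) = if (φ x).2 = (φ y).2 then 2 else 3 := rfl

theorem base_ge (e : Sym2 V) : 1 ≤ base φ e := by
  induction e with
  | _ x y =>
    rw [base_mk]
    split_ifs <;> norm_num

theorem rlen_ge (e : Sym2 V) : 4 * (a : ℝ) ≤ rlen φ e := by
  induction e with
  | _ x y =>
    rw [rlen_mk]
    split_ifs
    · exact le_rfl
    · have h1 : (0 : ℝ) ≤ ((φ x).1 : ℕ) := Nat.cast_nonneg _
      have h2 : (0 : ℝ) ≤ ((φ y).1 : ℕ) := Nat.cast_nonneg _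
      linarith

include φ in
theorem apos (x : V) : (0 : ℝ) < a := by
  have := (φ x).1.pos
  exact_mod_cast this

theorem rlen_lt (x y : V) : rlen φ s(x, y) < 6 * a := by
  rw [rlen_mk]
  have h0 := apos φ x
  split_ifs
  · linarith
  · have h1 : (((φ x).1 : ℕ) : ℝ) < a := by exact_mod_cast (φ x).1.2
    have h2 : (((φ y).1 : ℕ) : ℝ) < a := by exact_mod_cast (φ y).1.2
    linarith

theorem wlen_nil {G : SimpleGraph V} (len : Sym2 V → ℝ) (s : V) :
    wlen len (Walk.nil : G.Walk s s) = 0 := by simp [wlen]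

theorem wlen_cons {G : SimpleGraph V} (len : Sym2 V → ℝ) {s x t : V} (h : G.Adj s x)
    (p : G.Walk x t) : wlen len (Walk.cons h p) = len s(s, x) + wlen len p := by simp [wlen]

theorem wlen_nonneg {G : SimpleGraph V} {s t : V} (p : G.Walk s t) : 0 ≤ wlen (rlen φ) p := by
  unfold wlen
  apply List.sum_nonneg
  intro x hx
  obtain ⟨e, _, rfl⟩ := List.mem_map.1 hx
  exact le_trans (by positivity) (rlen_ge φ e)

theorem sp_adj {s t : V} (h : (rook φ).Adj s t) (q : (rook φ).Walk s t) :
    q = Walk.cons h Walk.nil ∨ wlen (rlen φ) (Walk.cons h Walk.nil) < wlen (rlen φ) q := by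
  cases q with
  | nil => exact absurd rfl h.ne
  | cons h1 q1 =>
    cases q1 with
    | nil => exact Or.inl rfl
    | cons h2 q2 =>
      right
      rw [wlen_cons, wlen_cons, wlen_cons, wlen_nil]
      have e1 := rlen_lt φ s t
      have e3 := wlen_nonneg φ q2
      have e4 := apos φ s
      rename_i y z
      have e5 := rlen_ge φ s(s, y)
      have e6 := rlen_ge φ s(y, z)
      linarith

theorem sp_two {s x t : V} (hr : (φ s).1 < (φ t).1) (hc : (φ s).2 ≠ (φ t).2)
    (hx : φ x = ((φ s).1, (φ t).2)) (h1 : (rook φ).Adj s x) (h2 : (rook φ).Adj x t)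
    (q : (rook φ).Walk s t) :
    q = Walk.cons h1 (Walk.cons h2 Walk.nil) ∨
      wlen (rlen φ) (Walk.cons h1 (Walk.cons h2 Walk.nil)) < wlen (rlen φ) q := by
  have hx1 : (φ x).1 = (φ s).1 := by rw [hx]
  have hx2 : (φ x).2 = (φ t).2 := by rw [hx]
  have hlen : wlen (rlen φ) (Walk.cons h1 (Walk.cons h2 Walk.nil)) =
      8 * a + 2 * ((φ s).1 : ℕ) := by
    rw [wlen_cons, wlen_cons, wlen_nil, rlen_mk, rlen_mk, if_neg (by rw [hx2]; exact hc),
      if_pos hx2, hx1]
    ring
  have hs : (((φ s).1 : ℕ) : ℝ) < ((φ t).1 : ℕ) := by exact_mod_cast hr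
  cases q with
  | nil => exact absurd hr (lt_irrefl _)
  | @cons _ y _ g1 q1 =>
    cases q1 with
    | nil =>
      rcases g1.2 with h | h
      · exact absurd h hr.ne
      · exact absurd h hc
    | @cons _ z _ g2 q2 =>
      cases q2 with
      | nil =>
        rcases g1.2 with h | h
        · rcases g2.2 with h' | h'
          · exact absurd (h.trans h') hr.ne
          · have hy : y = x := φ.injective (by
              rw [hx]; exact Prod.ext h.symm h')
            subst hy
            exact Or.inl rfl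
        · rcases g2.2 with h' | h'
          · right
            rw [hlen, wlen_cons, wlen_cons, wlen_nil, rlen_mk, rlen_mk, if_pos h,
              if_neg (by rw [← h]; exact hc), h']
            linarith
          · exact absurd (h.trans h') hc
      | @cons _ u _ g3 q3 =>
        right
        rw [hlen, wlen_cons, wlen_cons, wlen_cons]
        have e0 : (((φ s).1 : ℕ) : ℝ) < a := by exact_mod_cast (φ s).1.2
        have e3 := wlen_nonneg φ q3
        have e4 := rlen_ge φ s(s, y)
        have e5 := rlen_ge φ s(y, z)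
        have e6 := rlen_ge φ s(z, u)
        have e7 := apos φ s
        linarith

theorem shortest_of {G : SimpleGraph V} {len : Sym2 V → ℝ} {s t : V} {p : G.Walk s t}
    (hp : p.IsPath) (h : ∀ q : G.Walk s t, q = p ∨ wlen len p < wlen len q) :
    Shortest len p ∧ ∀ q : G.Walk s t, Shortest len q → q = p := by
  refine ⟨⟨hp, fun q _ => ?_⟩, fun q hq => ?_⟩
  · rcases h q with rfl | h
    · exact le_rfl
    · exact h.le
  · rcases h q with h | h
    · exact h
    · exact absurd (hq.2 p hp) (not_le.2 h)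

theorem wlen_reverse {G : SimpleGraph V} (len : Sym2 V → ℝ) {s t : V} (p : G.Walk s t) :
    wlen len p.reverse = wlen len p := by
  unfold wlen
  rw [Walk.edges_reverse, List.map_reverse, List.sum_reverse]

theorem adj1 {s x : V} (h : (φ s).1 = (φ x).1) (h' : s ≠ x) : (rook φ).Adj s x := ⟨h', Or.inl h⟩

theorem adj2 {s x : V} (h : (φ s).2 = (φ x).2) (h' : s ≠ x) : (rook φ).Adj s x := ⟨h', Or.inr h⟩

theorem path_two {s x t : V} (h1 : (rook φ).Adj s x) (h2 : (rook φ).Adj x t) (h3 : s ≠ t) :
    (Walk.cons h1 (Walk.cons h2 Walk.nil)).IsPath := by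
  rw [Walk.isPath_def]
  simp [h1.ne, h2.ne, h3]

theorem exists_sp (s t : V) : ∃ p : (rook φ).Walk s t, p.IsPath ∧
    ∀ q : (rook φ).Walk s t, q = p ∨ wlen (rlen φ) p < wlen (rlen φ) q := by
  by_cases hst : s = t
  · subst hst
    refine ⟨Walk.nil, by simp, fun q => ?_⟩
    cases q with
    | nil => exact Or.inl rfl
    | cons h q =>
      right
      rw [wlen_nil, wlen_cons]
      have e3 := wlen_nonneg φ q
      rename_i x
      have e4 := rlen_ge φ s(s, x)
      have e7 := apos φ s
      linarith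
  by_cases hc : (φ s).2 = (φ t).2
  · exact ⟨Walk.cons (adj2 φ hc hst) Walk.nil, by simp [hst], sp_adj φ _⟩
  have key : ∀ s t : V, (φ s).2 ≠ (φ t).2 → (φ s).1 < (φ t).1 → ∃ p : (rook φ).Walk s t,
      p.IsPath ∧ ∀ q : (rook φ).Walk s t, q = p ∨ wlen (rlen φ) p < wlen (rlen φ) q := by
    intro s t hc hr
    have hx : φ (φ.symm ((φ s).1, (φ t).2)) = ((φ s).1, (φ t).2) := φ.apply_symm_apply _
    have h1 : (rook φ).Adj s (φ.symm ((φ s).1, (φ t).2)) := adj1 φ (by rw [hx]) (by
      intro h
      rw [← h] at hx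
      exact hc (by rw [hx]))
    have h2 : (rook φ).Adj (φ.symm ((φ s).1, (φ t).2)) t := adj2 φ (by rw [hx]) (by
      intro h
      rw [h] at hx
      exact hr.ne (by rw [hx]))
    exact ⟨_, path_two φ h1 h2 (by rintro rfl; exact hc rfl), sp_two φ hr hc hx h1 h2⟩
  rcases lt_trichotomy (φ s).1 (φ t).1 with h | h | h
  · exact key s t hc h
  · exact ⟨Walk.cons (adj1 φ h hst) Walk.nil, by simp [hst], sp_adj φ _⟩
  · obtain ⟨p, hp, hq⟩ := key t s (Ne.symm hc) h
    refine ⟨p.reverse, hp.reverse, fun q => ?_⟩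
    rcases hq q.reverse with h | h
    · left
      rw [← h, Walk.reverse_reverse]
    · right
      rwa [wlen_reverse, ← wlen_reverse (rlen φ) q]

theorem valid : Valid (rook φ) (rlen φ) := by
  refine ⟨?_, fun s t _ => ?_⟩
  · intro e he
    induction e with
    | _ x y => exact lt_of_lt_of_le (by have := apos φ x; linarith) (rlen_ge φ _)
  · obtain ⟨p, hp, hq⟩ := exists_sp φ s t
    obtain ⟨h1, h2⟩ := shortest_of hp hq
    exact ⟨p, h1, fun q hq => h2 q hq⟩

end rook

/-! ### Counting -/

section count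

variable {a : ℕ} (φ : V ≃ Fin a × Fin a) [Fintype V] [DecidableEq V]

/-- the cell `y` is below the cell `x` -/
def Below (x y : V) : Prop := (φ x).2 = (φ y).2 ∧ (φ x).1 < (φ y).1

instance : DecidableRel (Below φ) := fun _ _ => inferInstanceAs (Decidable (_ ∧ _))

omit [DecidableEq V] in
theorem card_below (x : V) : (Finset.univ.filter (fun y => Below φ x y)).card =
    a - 1 - (φ x).1 := by
  rw [← Fin.card_Ioi]
  refine Finset.card_bij (fun y _ => (φ y).1) ?_ ?_ ?_
  · intro y hy
    exact Finset.mem_Ioi.2 (Finset.mem_filter.1 hy).2.2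
  · intro y hy y' hy' h
    have h1 := (Finset.mem_filter.1 hy).2.1
    have h2 := (Finset.mem_filter.1 hy').2.1
    exact φ.injective (Prod.ext h (h1.symm.trans h2))
  · intro r hr
    refine ⟨φ.symm (r, (φ x).2), ?_, by simp⟩
    rw [Finset.mem_filter]
    refine ⟨Finset.mem_univ _, ?_⟩
    unfold Below
    rw [φ.apply_symm_apply]
    exact ⟨rfl, Finset.mem_Ioi.1 hr⟩

omit [DecidableEq V] in
theorem card_above (y : V) : (Finset.univ.filter (fun x => Below φ x y)).card =
    (φ y).1 := by
  rw [← Fin.card_Iio]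
  refine Finset.card_bij (fun y _ => (φ y).1) ?_ ?_ ?_
  · intro x hx
    exact Finset.mem_Iio.2 (Finset.mem_filter.1 hx).2.2
  · intro y hy y' hy' h
    have h1 := (Finset.mem_filter.1 hy).2.1
    have h2 := (Finset.mem_filter.1 hy').2.1
    exact φ.injective (Prod.ext h (h1.trans h2.symm))
  · intro r hr
    refine ⟨φ.symm (r, (φ y).2), ?_, by simp⟩
    rw [Finset.mem_filter]
    refine ⟨Finset.mem_univ _, ?_⟩
    unfold Below
    rw [φ.apply_symm_apply]
    exact ⟨rfl, Finset.mem_Iio.1 hr⟩

theorem count (S : Finset V) : a * a * (a - 1) ≤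
    2 * ((Finset.univ.filter (fun p : V × V => Below φ p.1 p.2 ∧ p.1 ∉ S ∧ p.2 ∉ S)).card +
      S.card * (a - 1)) := by
  have e1 : ∀ x : V, ∑ y, (if Below φ x y then 1 else 0) = a - 1 - (φ x).1 := by
    intro x
    rw [← card_below φ x, Finset.card_filter]
  have e2 : ∀ y : V, ∑ x, (if Below φ x y then 1 else 0) = ((φ y).1 : ℕ) := by
    intro x
    rw [← card_above φ x, Finset.card_filter]
  have e3 : 2 * ∑ x : V, ∑ y, (if Below φ x y then 1 else 0) = a * a * (a - 1) := by
    have h1 : ∑ x : V, ∑ y, (if Below φ x y then 1 else 0) = ∑ x : V, (a - 1 - (φ x).1) :=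
      Finset.sum_congr rfl fun x _ => e1 x
    have h2 : ∑ x : V, ∑ y, (if Below φ x y then 1 else 0) = ∑ y : V, ((φ y).1 : ℕ) := by
      rw [Finset.sum_comm]
      exact Finset.sum_congr rfl fun x _ => e2 x
    have h3 : ∑ x : V, (a - 1 - (φ x).1) + ∑ y : V, ((φ y).1 : ℕ) = ∑ x : V, (a - 1) := by
      rw [← Finset.sum_add_distrib]
      refine Finset.sum_congr rfl fun x _ => ?_
      have := (φ x).1.2
      omega
    rw [Finset.sum_const, Finset.card_univ, Fintype.card_congr φ, Fintype.card_prod,
      Fintype.card_fin, smul_eq_mul] at h3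
    omega
  have e4 : ∑ x : V, ∑ y, (if Below φ x y then 1 else 0) ≤
      ∑ x : V, ∑ y, ((if Below φ x y ∧ x ∉ S ∧ y ∉ S then 1 else 0) +
        (if x ∈ S then (if Below φ x y then 1 else 0) else 0) +
        (if y ∈ S then (if Below φ x y then 1 else 0) else 0)) := by
    refine Finset.sum_le_sum fun x _ => Finset.sum_le_sum fun y _ => ?_
    by_cases h1 : Below φ x y <;> by_cases h2 : x ∈ S <;> by_cases h3 : y ∈ S <;> simp [h1, h2, h3]
  have s1 : ∑ x : V, ∑ y, (if x ∈ S then (if Below φ x y then 1 else 0) else 0) =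
      ∑ x ∈ S, (a - 1 - (φ x).1) := by
    calc _ = ∑ x : V, (if x ∈ S then ∑ y, (if Below φ x y then 1 else 0) else 0) := by
          refine Finset.sum_congr rfl fun x _ => ?_
          by_cases h : x ∈ S
          · simp only [if_pos h]
          · simp only [if_neg h, Finset.sum_const_zero]
      _ = ∑ x ∈ S, ∑ y, (if Below φ x y then 1 else 0) := by
          rw [Finset.sum_ite_mem, Finset.univ_inter]
      _ = _ := Finset.sum_congr rfl fun x _ => e1 x
  have s2 : ∑ x : V, ∑ y, (if y ∈ S then (if Below φ x y then 1 else 0) else 0) =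
      ∑ y ∈ S, ((φ y).1 : ℕ) := by
    rw [Finset.sum_comm]
    calc _ = ∑ y : V, (if y ∈ S then ∑ x, (if Below φ x y then 1 else 0) else 0) := by
          refine Finset.sum_congr rfl fun x _ => ?_
          by_cases h : x ∈ S
          · simp only [if_pos h]
          · simp only [if_neg h, Finset.sum_const_zero]
      _ = ∑ y ∈ S, ∑ x, (if Below φ x y then 1 else 0) := by
          rw [Finset.sum_ite_mem, Finset.univ_inter]
      _ = _ := Finset.sum_congr rfl fun x _ => e2 x
  have s3 : ∑ x ∈ S, (a - 1 - (φ x).1) + ∑ y ∈ S, ((φ y).1 : ℕ) = S.card * (a - 1) := by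
    rw [← Finset.sum_add_distrib, Finset.card_eq_sum_ones, Finset.sum_mul]
    refine Finset.sum_congr rfl fun x _ => ?_
    have := (φ x).1.2
    omega
  have s4 : (Finset.univ.filter (fun p : V × V => Below φ p.1 p.2 ∧ p.1 ∉ S ∧ p.2 ∉ S)).card =
      ∑ x : V, ∑ y, (if Below φ x y ∧ x ∉ S ∧ y ∉ S then 1 else 0) := by
    rw [Finset.card_filter, ← Fintype.sum_prod_type']
  simp only [Finset.sum_add_distrib] at e4
  rw [s1, s2, ← s4] at e4
  omega

/-- the neighbours of a cell -/
theorem card_nbr (s : V) : (Finset.univ.filter (fun y => s ≠ y ∧ ((φ s).1 = (φ y).1 ∨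
    (φ s).2 = (φ y).2))).card ≤ 2 * (a - 1) := by
  have h1 : (Finset.univ.filter (fun y => s ≠ y ∧ (φ s).1 = (φ y).1)).card ≤ a - 1 := by
    have : ((Finset.univ : Finset (Fin a)).erase (φ s).2).card = a - 1 := by
      rw [Finset.card_erase_of_mem (Finset.mem_univ _), Finset.card_univ, Fintype.card_fin]
    rw [← this]
    refine Finset.card_le_card_of_injOn (fun y => (φ y).2) ?_ ?_
    · intro y hy
      obtain ⟨-, h1, h2⟩ := Finset.mem_filter.1 (Finset.mem_coe.1 hy)
      exact Finset.mem_coe.2 (Finset.mem_erase.2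
        ⟨fun h => h1 (φ.injective (Prod.ext h2 h.symm)), Finset.mem_univ _⟩)
    · intro y hy y' hy' h
      obtain ⟨-, -, h2⟩ := Finset.mem_filter.1 (Finset.mem_coe.1 hy)
      obtain ⟨-, -, h3⟩ := Finset.mem_filter.1 (Finset.mem_coe.1 hy')
      exact φ.injective (Prod.ext (h2.symm.trans h3) h)
  have h2 : (Finset.univ.filter (fun y => s ≠ y ∧ (φ s).2 = (φ y).2)).card ≤ a - 1 := by
    have : ((Finset.univ : Finset (Fin a)).erase (φ s).1).card = a - 1 := by
      rw [Finset.card_erase_of_mem (Finset.mem_univ _), Finset.card_univ, Fintype.card_fin]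
    rw [← this]
    refine Finset.card_le_card_of_injOn (fun y => (φ y).1) ?_ ?_
    · intro y hy
      obtain ⟨-, h1, h2⟩ := Finset.mem_filter.1 (Finset.mem_coe.1 hy)
      exact Finset.mem_coe.2 (Finset.mem_erase.2
        ⟨fun h => h1 (φ.injective (Prod.ext h.symm h2)), Finset.mem_univ _⟩)
    · intro y hy y' hy' h
      obtain ⟨-, -, h2⟩ := Finset.mem_filter.1 (Finset.mem_coe.1 hy)
      obtain ⟨-, -, h3⟩ := Finset.mem_filter.1 (Finset.mem_coe.1 hy')
      exact φ.injective (Prod.ext h (h2.symm.trans h3))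
  have h3 : (Finset.univ.filter (fun y => s ≠ y ∧ ((φ s).1 = (φ y).1 ∨ (φ s).2 = (φ y).2))) ⊆
      (Finset.univ.filter (fun y => s ≠ y ∧ (φ s).1 = (φ y).1)) ∪
      (Finset.univ.filter (fun y => s ≠ y ∧ (φ s).2 = (φ y).2)) := by
    intro y hy
    obtain ⟨-, h1, h2⟩ := Finset.mem_filter.1 hy
    rw [Finset.mem_union, Finset.mem_filter, Finset.mem_filter]
    exact h2.imp (fun h => ⟨Finset.mem_univ _, h1, h⟩) (fun h => ⟨Finset.mem_univ _, h1, h⟩)
  have := (Finset.card_le_card h3).trans (Finset.card_union_le _ _)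
  omega

theorem card_R_le (L : List V) :
    (R (rook φ) (rlen φ) (cap (base φ) L) L.toFinset).ncard ≤ L.toFinset.card * (2 * (a - 1)) := by
  classical
  let N : Finset (Sym2 V) := L.toFinset.biUnion fun s =>
    (Finset.univ.filter (fun y => s ≠ y ∧ ((φ s).1 = (φ y).1 ∨ (φ s).2 = (φ y).2))).image
      fun y => s(s, y)
  have hsub : R (rook φ) (rlen φ) (cap (base φ) L) L.toFinset ⊆ (N : Set (Sym2 V)) := by
    rintro e ⟨s, hs, t, he⟩
    have hsL : s ∈ L := List.mem_toFinset.1 hs
    have hhit := (bottleneck_iff (G := rook φ) (len := rlen φ) (base_ge φ) [] hsL t e).2 he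
    obtain ⟨p, -, hep, -⟩ := he
    have hedge : e ∈ (rook φ).edgeSet := Walk.edges_subset_edgeSet p hep
    obtain ⟨x, hxL, hxe⟩ := hhit
    obtain ⟨y, rfl⟩ := Sym2.mem_iff_exists.1 hxe
    rw [SimpleGraph.mem_edgeSet] at hedge
    refine Finset.mem_coe.2 (Finset.mem_biUnion.2 ⟨x, List.mem_toFinset.2 hxL,
      Finset.mem_image.2 ⟨y, Finset.mem_filter.2 ⟨Finset.mem_univ _, hedge⟩, rfl⟩⟩)
  calc (R (rook φ) (rlen φ) (cap (base φ) L) L.toFinset).ncard ≤ (N : Set (Sym2 V)).ncard :=
        Set.ncard_le_ncard hsub (Finset.finite_toSet _)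
    _ = N.card := Set.ncard_coe_finset N
    _ ≤ L.toFinset.card * (2 * (a - 1)) := by
        refine Finset.card_biUnion_le_card_mul _ _ _ fun s _ => ?_
        exact Finset.card_image_le.trans (card_nbr φ s)

theorem exists_T (ha : 0 < a) (L : List V) : ∃ T : Finset V, T.card = a ∧
    (Finset.univ.filter (fun p : V × V => Below φ p.1 p.2 ∧ p.1 ∉ L.toFinset ∧
      p.2 ∉ L.toFinset)).card ≤ (R (rook φ) (rlen φ) (cap (base φ) L) T).ncard := by
  classical
  have hpick : ∀ i : Fin a, ∃ x : V, (φ x).1 = i ∧ ((∃ y, (φ y).1 = i ∧ y ∉ L) → x ∉ L) := by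
    intro i
    by_cases h : ∃ y, (φ y).1 = i ∧ y ∉ L
    · obtain ⟨y, h1, h2⟩ := h
      exact ⟨y, h1, fun _ => h2⟩
    · exact ⟨φ.symm (i, ⟨0, ha⟩), by simp, fun h' => absurd h' h⟩
  choose pick hp1 hp2 using hpick
  refine ⟨Finset.univ.image pick, ?_, ?_⟩
  · rw [Finset.card_image_of_injective _ (fun i j h => by rw [← hp1 i, ← hp1 j, h]),
      Finset.card_univ, Fintype.card_fin]
  · have hw : ∀ e, ¬ Hit L e → cap (base φ) L e = base φ e := fun e he => by
      unfold cap; rw [if_neg he]
    have hnot : ∀ x y : V, x ∉ L → y ∉ L → ¬ Hit L s(x, y) := by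
      rintro x y hx hy ⟨z, hz, hz'⟩
      rcases Sym2.mem_iff.1 hz' with rfl | rfl
      · exact hx hz
      · exact hy hz
    rw [← Set.ncard_coe_finset]
    refine Set.ncard_le_ncard_of_injOn (fun p : V × V => s(p.1, p.2)) ?_ ?_ (Set.toFinite _)
    · rintro ⟨x, y⟩ hxy
      obtain ⟨-, ⟨hb1, hb2⟩, hx, hy⟩ := Finset.mem_filter.1 (Finset.mem_coe.1 hxy)
      simp only [List.mem_toFinset] at hx hy
      simp only at hb1 hb2
      refine ⟨pick (φ x).1, Finset.mem_image_of_mem _ (Finset.mem_univ _), y, ?_⟩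
      have hs := hp2 (φ x).1 ⟨x, rfl, hx⟩
      have hs1 := hp1 (φ x).1
      set s := pick (φ x).1 with hsdef
      have hxy' : x ≠ y := by rintro rfl; exact lt_irrefl _ hb2
      by_cases hsx : s = x
      · rw [hsx]
        refine ⟨Walk.cons (adj2 φ hb1 hxy') Walk.nil, (shortest_of (by simp [hxy'])
          (sp_adj φ _)).1, by simp, ?_⟩
        intro e' he' hne
        simp only [Walk.edges_cons, Walk.edges_nil, List.mem_singleton] at he'
        exact absurd he' hne
      · have hcol : (φ s).2 ≠ (φ x).2 := fun h => hsx (φ.injective (Prod.ext hs1 h))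
        have h1 : (rook φ).Adj s x := adj1 φ hs1 hsx
        have h2 : (rook φ).Adj x y := adj2 φ hb1 hxy'
        have hsy : s ≠ y := by
          rintro h
          rw [h] at hs1
          exact hb2.ne hs1.symm
        have hr' : (φ s).1 < (φ y).1 := by rw [hs1]; exact hb2
        have hc' : (φ s).2 ≠ (φ y).2 := by rw [← hb1]; exact hcol
        have hx' : φ x = ((φ s).1, (φ y).2) := Prod.ext hs1.symm hb1
        refine ⟨Walk.cons h1 (Walk.cons h2 Walk.nil), (shortest_of (path_two φ h1 h2 hsy)
          (sp_two φ hr' hc' hx' h1 h2)).1, by simp, ?_⟩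
        intro e' he' hne
        simp only [Walk.edges_cons, Walk.edges_nil, List.mem_cons, List.not_mem_nil,
          or_false] at he'
        rcases he' with rfl | rfl
        · change cap (base φ) L s(x, y) < cap (base φ) L s(s, x)
          rw [hw _ (hnot _ _ hx hy), hw _ (hnot _ _ hs hx), base_mk, base_mk, if_pos hb1,
            if_neg hcol]
          norm_num
        · exact absurd rfl hne
    · rintro ⟨x, y⟩ hxy ⟨x', y'⟩ hxy' h
      obtain ⟨-, ⟨-, hb2⟩, -, -⟩ := Finset.mem_filter.1 (Finset.mem_coe.1 hxy)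
      obtain ⟨-, ⟨-, hb2'⟩, -, -⟩ := Finset.mem_filter.1 (Finset.mem_coe.1 hxy')
      simp only at hb2 hb2' h
      rw [Sym2.eq_iff] at h
      rcases h with ⟨rfl, rfl⟩ | ⟨rfl, rfl⟩
      · rfl
      · exact absurd hb2 (not_lt.2 hb2'.le)

end count

/-- **Lower bound on one board.** -/
theorem board [Fintype V] {a : ℕ} (ha : 2 ≤ a) (φ : V ≃ Fin a × Fin a)
    (B : History V → Option V) (hB : ∀ c : Sym2 V → ℝ, (∀ e, 0 < c e) →
      ∃ S, Optimal (rook φ) (rlen φ) c B a S) :
    ∃ c : Sym2 V → ℝ, (∀ e, 0 < c e) ∧ ∀ S, Optimal (rook φ) (rlen φ) c B a S →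
      a * a ≤ 6 * S.card := by
  classical
  obtain ⟨L, hL⟩ := adversary (G := rook φ) (len := rlen φ) (B := B) (base_ge φ)
  refine ⟨cap (base φ) L, cap_pos (base_ge φ) L, fun S hS => ?_⟩
  have h1 := hL S hS.1
  subst h1
  obtain ⟨T, hT, hT2⟩ := exists_T φ (by omega) L
  have h2 := hS.2 T hT
  have h3 := card_R_le φ L
  have h4 := count φ L.toFinset
  obtain ⟨b, rfl⟩ : ∃ b, a = b + 2 := ⟨a - 2, by omega⟩
  rw [show b + 2 - 1 = b + 1 by omega] at h3 h4
  have h5 : (b + 2) * (b + 2) * (b + 1) ≤ 6 * L.toFinset.card * (b + 1) := by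
    calc (b + 2) * (b + 2) * (b + 1) ≤ 2 * (L.toFinset.card * (2 * (b + 1)) +
          L.toFinset.card * (b + 1)) := by omega
      _ = 6 * L.toFinset.card * (b + 1) := by ring
  exact Nat.le_of_mul_le_mul_right h5 (by omega)

/-- **Answer to Q1.** There are valid instances with `n = a²`, `k = a` on which every strategy that
always reveals at least `OPT` needs at least `n / 6` vantage points; hence no number `α(n,k) k` of
vantage points with `α(n,k) k / n → 0` as `n / k → ∞` suffices. -/
theorem result :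
    (∀ a : ℕ, 2 ≤ a → ∃ (G : SimpleGraph (Fin (a * a))) (len : Sym2 (Fin (a * a)) → ℝ),
      Valid G len ∧ ∀ B : History (Fin (a * a)) → Option (Fin (a * a)),
        (∀ c, (∀ e, 0 < c e) → ∃ S, Optimal G len c B a S) →
        ∃ c, (∀ e, 0 < c e) ∧ ∀ S, Optimal G len c B a S → a * a ≤ 6 * S.card) ∧
    ¬ ∃ α : ℕ → ℕ → ℝ,
      (∀ ε > 0, ∃ N : ℝ, ∀ n k : ℕ, 1 ≤ k → N ≤ (n : ℝ) / k → α n k * k ≤ ε * n) ∧
      ∀ (n : ℕ) (G : SimpleGraph (Fin n)) (len : Sym2 (Fin n) → ℝ) (k : ℕ), Valid G len →
        1 ≤ k → k ≤ n → ∃ B : History (Fin n) → Option (Fin n), ∀ c, (∀ e, 0 < c e) →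
          ∃ S, Optimal G len c B k S ∧ (S.card : ℝ) ≤ α n k * k := by
  have main : ∀ a : ℕ, 2 ≤ a → ∃ (G : SimpleGraph (Fin (a * a))) (len : Sym2 (Fin (a * a)) → ℝ),
      Valid G len ∧ ∀ B : History (Fin (a * a)) → Option (Fin (a * a)),
        (∀ c, (∀ e, 0 < c e) → ∃ S, Optimal G len c B a S) →
        ∃ c, (∀ e, 0 < c e) ∧ ∀ S, Optimal G len c B a S → a * a ≤ 6 * S.card := by
    intro a ha
    exact ⟨rook finProdFinEquiv.symm, rlen finProdFinEquiv.symm, valid _, fun B hB =>
      board ha finProdFinEquiv.symm B hB⟩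
  refine ⟨main, ?_⟩
  rintro ⟨α, h1, h2⟩
  obtain ⟨N, hN⟩ := h1 (1 / 7) (by norm_num)
  obtain ⟨a, ha⟩ := exists_nat_ge (max N 2)
  have ha2 : 2 ≤ a := by
    have : (2 : ℝ) ≤ a := (le_max_right _ _).trans ha
    exact_mod_cast this
  have haN : N ≤ a := (le_max_left _ _).trans ha
  have ha0 : (0 : ℝ) < a := by
    have : 0 < a := by omega
    exact_mod_cast this
  obtain ⟨G, len, hv, hlow⟩ := main a ha2
  obtain ⟨B, hB⟩ := h2 (a * a) G len a hv (by omega) (Nat.le_mul_self a)
  obtain ⟨c, hc, hlow'⟩ := hlow B (fun c hc => by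
    obtain ⟨S, hS, _⟩ := hB c hc
    exact ⟨S, hS⟩)
  obtain ⟨S, hS, hS2⟩ := hB c hc
  have h3 := hlow' S hS
  have h4 := hN (a * a) a (by omega) (by
    push_cast
    rw [mul_div_assoc, div_self ha0.ne', mul_one]
    exact haN)
  have h5 : ((a * a : ℕ) : ℝ) ≤ 6 * S.card := by exact_mod_cast h3
  have h6 : (0 : ℝ) < ((a * a : ℕ) : ℝ) := by push_cast; positivity
  linarith

end Pool.Agent.Results.MP_617207_lc.LinearLowerBound
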